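import Pool.Agent.U696.WM.Stm
import Pool.Agent.H363R3.KF.O2

/-!
# Project WM, package AN4: the real part of the lens map
-/

set_option autoImplicit false

noncomputable section

open MeasureTheory Filter Topology Set
open scoped BigOperators Matrix ENNReal

namespace U334WM

open U696WM
open H363KF (AT)

theorem rot_norm (φ : ℝ) (z : ℂ) : ‖Complex.exp (φ * Complex.I) * z‖ = ‖z‖ := by
  rw [norm_mul, Complex.norm_exp_ofReal_mul_I, one_mul]

theorem cont_ATrot (z : ℂ) (hz : ‖z‖ < 1) :
    Continuous (fun φ : ℝ => AT (Complex.exp (φ * Complex.I) * z)) := by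
  rw [continuous_iff_continuousAt]
  intro φ
  have h3 : ContinuousAt AT (Complex.exp (φ * Complex.I) * z) :=
    (H363KF.O2.1 _ (by rw [rot_norm]; exact hz)).continuousAt
  have h4 : ContinuousAt (fun φ : ℝ => Complex.exp (φ * Complex.I) * z) φ := by
    fun_prop
  exact ContinuousAt.comp (f := fun φ : ℝ => Complex.exp (φ * Complex.I) * z) h3 h4

theorem re_hh {D : ℝ → ℝ} (hD : Continuous D) (z : ℂ) (hz : ‖z‖ < 1) :
    (hh D z).re = 2 / Real.pi * ∫ φ in (0 : ℝ)..Real.pi,
      D φ * (AT (Complex.exp (φ * Complex.I) * z)).im := by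
  have e : (2 / (Real.pi : ℂ)) = ((2 / Real.pi : ℝ) : ℂ) := by push_cast; rfl
  rw [hh, e, Complex.re_ofReal_mul]
  congr 1
  have hi : IntervalIntegrable (fun φ : ℝ => (D φ : ℂ) * ((-Complex.I) *
      AT (Complex.exp (φ * Complex.I) * z))) volume 0 Real.pi := by
    apply Continuous.intervalIntegrable
    exact (Complex.continuous_ofReal.comp hD).mul (continuous_const.mul (cont_ATrot z hz))
  have h5 := Complex.reCLM.intervalIntegral_comp_comm hi
  simp only [Complex.reCLM_apply] at h5
  rw [← h5]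
  apply intervalIntegral.integral_congr
  intro φ _
  simp only [Complex.mul_re, Complex.mul_im, Complex.neg_re, Complex.neg_im, Complex.I_re,
    Complex.I_im, Complex.ofReal_re, Complex.ofReal_im]
  ring

theorem re_bound {D : ℝ → ℝ} (hD : Dens D) (z : ℂ) (hz : ‖z‖ < 1) : |(hh D z).re| < 1 := by
  have hpi := Real.pi_pos
  rw [re_hh hD.cont z hz, abs_mul, abs_of_pos (by positivity : 0 < 2 / Real.pi)]
  have hmass : ∫ φ in (0 : ℝ)..Real.pi, D φ * (Real.pi / 4) = Real.pi / 2 := by
    rw [intervalIntegral.integral_mul_const, hD.mass]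
    ring
  have hb : ∀ φ : ℝ, |(AT (Complex.exp (φ * Complex.I) * z)).im| < Real.pi / 4 := fun φ =>
    H363KF.O2.2.1 _ (by rw [rot_norm]; exact hz)
  have hcont : Continuous (fun φ : ℝ => D φ * (AT (Complex.exp (φ * Complex.I) * z)).im) :=
    hD.cont.mul (Complex.continuous_im.comp (cont_ATrot z hz))
  have hcont2 : Continuous (fun φ : ℝ => D φ * (Real.pi / 4)) := hD.cont.mul continuous_const
  have key : |∫ φ in (0 : ℝ)..Real.pi, D φ * (AT (Complex.exp (φ * Complex.I) * z)).im| <
      Real.pi / 2 := by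
    rw [abs_lt]
    constructor
    · have h4 : ∫ φ in (0 : ℝ)..Real.pi, -(D φ * (Real.pi / 4)) <
          ∫ φ in (0 : ℝ)..Real.pi, D φ * (AT (Complex.exp (φ * Complex.I) * z)).im := by
        apply intervalIntegral.integral_lt_integral_of_continuousOn_of_le_of_exists_lt Real.pi_pos
        · exact hcont2.neg.continuousOn
        · exact hcont.continuousOn
        · intro φ _
          have := (abs_lt.mp (hb φ)).1
          nlinarith [hD.pos φ]
        · refine ⟨0, ⟨le_rfl, Real.pi_pos.le⟩, ?_⟩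
          have := (abs_lt.mp (hb 0)).1
          nlinarith [hD.pos 0]
      rw [intervalIntegral.integral_neg, hmass] at h4
      exact h4
    · rw [← hmass]
      apply intervalIntegral.integral_lt_integral_of_continuousOn_of_le_of_exists_lt Real.pi_pos
      · exact hcont.continuousOn
      · exact hcont2.continuousOn
      · intro φ _
        have := (abs_lt.mp (hb φ)).2
        nlinarith [hD.pos φ]
      · refine ⟨0, ⟨le_rfl, Real.pi_pos.le⟩, ?_⟩
        have := (abs_lt.mp (hb 0)).2
        nlinarith [hD.pos 0]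
  calc 2 / Real.pi * |∫ φ in (0 : ℝ)..Real.pi, D φ * (AT (Complex.exp (φ * Complex.I) * z)).im| <
      2 / Real.pi * (Real.pi / 2) := mul_lt_mul_of_pos_left key (by positivity)
    _ = 1 := by field_simp

theorem radial_tendsto (φ θ : ℝ) :
    Tendsto (fun r : ℝ => Complex.exp (φ * Complex.I) * ((r : ℂ) * Complex.exp (θ * Complex.I)))
      (𝓝[<] 1) (𝓝[Metric.ball 0 1] (Complex.exp (((θ + φ : ℝ) : ℂ) * Complex.I))) := by
  rw [tendsto_nhdsWithin_iff]
  constructor
  · have h : Continuous (fun r : ℝ => Complex.exp (φ * Complex.I) *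
        ((r : ℂ) * Complex.exp (θ * Complex.I))) := by fun_prop
    have h5 := h.tendsto 1
    have e : Complex.exp (φ * Complex.I) * (((1 : ℝ) : ℂ) * Complex.exp (θ * Complex.I)) =
        Complex.exp (((θ + φ : ℝ) : ℂ) * Complex.I) := by
      rw [Complex.ofReal_one, one_mul, ← Complex.exp_add]
      congr 1
      push_cast
      ring
    rw [e] at h5
    exact h5.mono_left nhdsWithin_le_nhds
  · have h0 : ∀ᶠ r : ℝ in 𝓝[<] 1, 0 < r :=
      nhdsWithin_le_nhds (lt_mem_nhds one_pos)
    filter_upwards [self_mem_nhdsWithin, h0] with r hr hr0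
    rw [Metric.mem_ball, dist_zero_right, rot_norm, norm_mul, Complex.norm_exp_ofReal_mul_I,
      mul_one, Complex.norm_real, Real.norm_eq_abs, abs_of_pos hr0]
    exact hr

theorem lim_integral {D : ℝ → ℝ} (hD : Dens D) {θ : ℝ} (hθ : θ ∈ Ioo (0 : ℝ) Real.pi) :
    ∫ φ in (0 : ℝ)..Real.pi, D φ * (if φ < Real.pi - θ then Real.pi / 4 else -(Real.pi / 4)) =
      Real.pi / 2 * (1 - ∫ φ in (0 : ℝ)..θ, D φ) := by
  have hi : ∀ a b : ℝ, IntervalIntegrable D volume a b := fun a b => hD.cont.intervalIntegrable a b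
  obtain ⟨h0, h1⟩ := hθ
  have e1 : ∫ φ in (0 : ℝ)..(Real.pi - θ),
      D φ * (if φ < Real.pi - θ then Real.pi / 4 else -(Real.pi / 4)) =
      ∫ φ in (0 : ℝ)..(Real.pi - θ), D φ * (Real.pi / 4) := by
    apply intervalIntegral.integral_congr_ae
    have hne : ∀ᵐ φ : ℝ, φ ≠ Real.pi - θ := by
      rw [ae_iff]
      simp
    filter_upwards [hne] with φ hφ hm
    rw [Set.uIoc_of_le (by linarith)] at hm
    rw [if_pos (lt_of_le_of_ne hm.2 hφ)]
  have e2 : ∫ φ in (Real.pi - θ)..Real.pi,
      D φ * (if φ < Real.pi - θ then Real.pi / 4 else -(Real.pi / 4)) =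
      ∫ φ in (Real.pi - θ)..Real.pi, D φ * (-(Real.pi / 4)) := by
    apply intervalIntegral.integral_congr_ae
    refine Eventually.of_forall fun φ hm => ?_
    rw [Set.uIoc_of_le (by linarith)] at hm
    rw [if_neg (not_lt.2 hm.1.le)]
  have j1 : IntervalIntegrable (fun φ => D φ * (if φ < Real.pi - θ then Real.pi / 4
      else -(Real.pi / 4))) volume 0 (Real.pi - θ) := by
    have : IntervalIntegrable (fun φ => D φ * (Real.pi / 4)) volume 0 (Real.pi - θ) :=
      (hD.cont.mul continuous_const).intervalIntegrable _ _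
    refine this.congr_ae ?_
    rw [Filter.EventuallyEq, ae_restrict_iff' measurableSet_uIoc]
    have hne : ∀ᵐ φ : ℝ, φ ≠ Real.pi - θ := by
      rw [ae_iff]
      simp
    filter_upwards [hne] with φ hφ hm
    rw [Set.uIoc_of_le (by linarith)] at hm
    rw [if_pos (lt_of_le_of_ne hm.2 hφ)]
  have j2 : IntervalIntegrable (fun φ => D φ * (if φ < Real.pi - θ then Real.pi / 4
      else -(Real.pi / 4))) volume (Real.pi - θ) Real.pi := by
    have : IntervalIntegrable (fun φ => D φ * (-(Real.pi / 4))) volume (Real.pi - θ) Real.pi :=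
      (hD.cont.mul continuous_const).intervalIntegrable _ _
    refine this.congr_ae ?_
    rw [Filter.EventuallyEq, ae_restrict_iff' measurableSet_uIoc]
    refine Eventually.of_forall fun φ hm => ?_
    rw [Set.uIoc_of_le (by linarith)] at hm
    rw [if_neg (not_lt.2 hm.1.le)]
  rw [← intervalIntegral.integral_add_adjacent_intervals j1 j2, e1, e2,
    intervalIntegral.integral_mul_const, intervalIntegral.integral_mul_const]
  have s1 : ∫ φ in (Real.pi - θ)..Real.pi, D φ = ∫ φ in (0 : ℝ)..θ, D φ := by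
    have h := intervalIntegral.integral_comp_sub_left (a := 0) (b := θ) D Real.pi
    rw [sub_zero] at h
    rw [← h]
    apply intervalIntegral.integral_congr
    intro φ _
    exact hD.symm φ
  have s2 : (∫ φ in (0 : ℝ)..(Real.pi - θ), D φ) + ∫ φ in (Real.pi - θ)..Real.pi, D φ = 2 := by
    rw [intervalIntegral.integral_add_adjacent_intervals (hi _ _) (hi _ _), hD.mass]
  rw [s1] at s2 ⊢
  have s3 : ∫ φ in (0 : ℝ)..(Real.pi - θ), D φ = 2 - ∫ φ in (0 : ℝ)..θ, D φ := by linarith
  rw [s3]
  ring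

theorem t_AN4 : S_AN4 := by
  intro D hD
  refine ⟨fun z hz => re_bound hD z hz, fun θ hθ => ?_⟩
  have hpi := Real.pi_pos
  have hnorm : ∀ᶠ r : ℝ in 𝓝[<] 1, ‖(r : ℂ) * Complex.exp (θ * Complex.I)‖ < 1 := by
    have h0 : ∀ᶠ r : ℝ in 𝓝[<] 1, 0 < r :=
      nhdsWithin_le_nhds (lt_mem_nhds one_pos)
    filter_upwards [self_mem_nhdsWithin, h0] with r hr hr0
    rw [norm_mul, Complex.norm_exp_ofReal_mul_I, mul_one, Complex.norm_real, Real.norm_eq_abs,
      abs_of_pos hr0]
    exact hr
  have hmain : Tendsto (fun r : ℝ => 2 / Real.pi * ∫ φ in (0 : ℝ)..Real.pi,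
      D φ * (AT (Complex.exp (φ * Complex.I) * ((r : ℂ) * Complex.exp (θ * Complex.I)))).im)
      (𝓝[<] 1) (𝓝 (2 / Real.pi * ∫ φ in (0 : ℝ)..Real.pi,
        D φ * (if φ < Real.pi - θ then Real.pi / 4 else -(Real.pi / 4)))) := by
    refine Tendsto.const_mul _ ?_
    refine intervalIntegral.tendsto_integral_filter_of_dominated_convergence
      (fun φ => D φ * (Real.pi / 4)) ?_ ?_ ?_ ?_
    · filter_upwards [hnorm] with r hr
      exact (hD.cont.mul (Complex.continuous_im.comp (cont_ATrot _ hr))).aestronglyMeasurable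
    · filter_upwards [hnorm] with r hr
      refine Eventually.of_forall (fun φ _ => ?_)
      have := H363KF.O2.2.1 (Complex.exp (φ * Complex.I) *
        ((r : ℂ) * Complex.exp (θ * Complex.I))) (by rw [rot_norm]; exact hr)
      rw [norm_mul, Real.norm_eq_abs, Real.norm_eq_abs, abs_of_pos (hD.pos φ)]
      exact mul_le_mul_of_nonneg_left this.le (hD.pos φ).le
    · exact (hD.cont.mul continuous_const).intervalIntegrable _ _
    · have hne : ∀ᵐ φ : ℝ, φ ≠ Real.pi - θ := by
        rw [ae_iff]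
        simp
      filter_upwards [hne] with φ hφ hm
      rw [Set.uIoc_of_le Real.pi_pos.le] at hm
      refine Tendsto.const_mul _ ?_
      by_cases hlt : φ < Real.pi - θ
      · rw [if_pos hlt]
        have hs : 0 < Real.sin (θ + φ) :=
          Real.sin_pos_of_pos_of_lt_pi (by linarith [hθ.1, hm.1]) (by linarith)
        exact (H363KF.O2.2.2.2.2.1 (θ + φ) hs).comp (radial_tendsto φ θ)
      · rw [if_neg hlt]
        have hgt : Real.pi - θ < φ := lt_of_le_of_ne (not_lt.1 hlt) (Ne.symm hφ)
        have hs : Real.sin (θ + φ) < 0 := by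
          have h1 : Real.sin (θ + φ) = -Real.sin (θ + φ - Real.pi) := by
            rw [Real.sin_sub_pi]
            ring
          rw [h1, neg_lt_zero]
          exact Real.sin_pos_of_pos_of_lt_pi (by linarith) (by linarith [hθ.2, hm.2])
        exact (H363KF.O2.2.2.2.2.2 (θ + φ) hs).comp (radial_tendsto φ θ)
  rw [lim_integral hD hθ] at hmain
  have e : 2 / Real.pi * (Real.pi / 2 * (1 - ∫ φ in (0 : ℝ)..θ, D φ)) =
      1 - ∫ φ in (0 : ℝ)..θ, D φ := by
    field_simp
  rw [e] at hmain
  refine hmain.congr' ?_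
  filter_upwards [hnorm] with r hr
  exact (re_hh hD.cont _ hr).symm

end U334WM
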